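import Pool.Agent.Q41.SU.Stm6

/-!
# Project SU (helper41): job A6, the theorem over an algebraically closed field of constants
-/

set_option autoImplicit false
set_option linter.unusedVariables false
set_option linter.unusedSectionVars false

namespace Pool.Agent.Q177.SU

open Finset Polynomial Pool.Agent.Q41.SU
open Pool.Agent.W277.UH (ConjConst)

universe u

/-- the resultant of coprime polynomials (copied from `W277/UH/G1.lean`) -/
lemma res_ne {K : Type u} [Field K] (d : ℕ) (p q : Polynomial K) (hp : p.natDegree ≤ d)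
    (hq : q.natDegree = d) (hd : 1 ≤ d) (hco : IsCoprime p q) : resultant q p d d ≠ 0 := by
  intro h0
  set φ := algebraMap K (AlgebraicClosure K) with hφ
  have h1 := resultant_eq_prod_eval (q.map φ) (p.map φ) d (natDegree_map_le.trans hp)
    (IsAlgClosed.splits _)
  rw [natDegree_map, hq, resultant_map_map, h0, map_zero] at h1
  have hq0 : q.map φ ≠ 0 := by
    intro h
    have h2 : (q.map φ).natDegree = d := by rw [natDegree_map, hq]
    rw [h, natDegree_zero] at h2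
    omega
  have h2 := (mul_eq_zero.mp h1.symm).resolve_left (pow_ne_zero _ (leadingCoeff_ne_zero.mpr hq0))
  rw [Multiset.prod_eq_zero_iff, Multiset.mem_map] at h2
  obtain ⟨x, hx, hpx⟩ := h2
  have hqx : (q.map φ).eval x = 0 := (mem_roots hq0).mp hx
  obtain ⟨u, w, h⟩ := hco
  have h3 := congrArg (fun g : Polynomial K => (g.map φ).eval x) h
  simp only [Polynomial.map_add, Polynomial.map_mul, Polynomial.map_one, eval_add, eval_mul,
    eval_one] at h3
  rw [hpx, hqx, mul_zero, mul_zero, add_zero] at h3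
  exact zero_ne_one h3

variable {k E Λ : Type u} [Field k] [Field E] [Algebra k E] [NormedField Λ] [Algebra k Λ]

lemma isPl_comp {ι : E →ₐ[k] Λ} {e : ℕ} {w : E → ℤ} (h : IsPl k ι e w) (g : E ≃ₐ[k] E) :
    IsPl k (ι.comp (g : E →ₐ[k] E)) e (fun y => w (g y)) where
  he := h.he
  norm := fun x hx => h.norm (g x) (by simpa using hx)
  unif := by
    obtain ⟨π, h0, h1⟩ := h.unif
    exact ⟨g.symm π, by simpa using h0, by simpa using h1⟩
  digit := fun x hx => h.digit (g x) hx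

lemma isPl_nonneg {ι : E →ₐ[k] Λ} {e : ℕ} {w : E → ℤ} (h : IsPl k ι e w) {y : E} (hy : y ≠ 0)
    (h1 : ‖ι y‖ ≤ 1) : 0 ≤ w y := by
  rw [h.norm y hy, Real.exp_le_one_iff, neg_nonpos] at h1
  have he : (0 : ℝ) < e := by exact_mod_cast h.he
  have h2 : (0 : ℝ) ≤ w y := by
    by_contra hcon
    push Not at hcon
    have := div_neg_of_neg_of_pos hcon he
    linarith
  exact_mod_cast h2

lemma app_ne (m : Mb E) (hm : m.det ≠ 0) {x y : E} (hx : m.den x ≠ 0) (hy : m.den y ≠ 0)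
    (hxy : x ≠ y) : m.app x - m.app y ≠ 0 := by
  have h1 : m.app x - m.app y = m.det * (x - y) / (m.den x * m.den y) := by
    unfold Mb.app
    rw [div_sub_div _ _ hx hy]
    congr 1
    unfold Mb.den Mb.det
    ring
  rw [h1]
  exact div_ne_zero (mul_ne_zero hm (sub_ne_zero.2 hxy)) (mul_ne_zero hx hy)

lemma iter_comm (D : Derivation k E E) (g : E ≃ₐ[k] E) (hg : ∀ x, D (g x) = g (D x)) (n : ℕ)
    (y : E) : (D^[n]) (g y) = g ((D^[n]) y) := by
  induction n with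
  | zero => rfl
  | succ n ih =>
    rw [Function.iterate_succ_apply', Function.iterate_succ_apply', ih, hg]

lemma tay_comm (D : Derivation k E E) (g : E ≃ₐ[k] E) (hg : ∀ x, D (g x) = g (D x)) (y : E) :
    tay D (g y) = PowerSeries.map ((g : E →ₐ[k] E) : E →+* E) (tay D y) := by
  ext n
  rw [PowerSeries.coeff_map]
  unfold tay
  rw [PowerSeries.coeff_mk, PowerSeries.coeff_mk, iter_comm D g hg]
  simp

/-- finiteness of the set of the bad points for finitely many elements -/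
lemma fin_all (hfin : S_fin.{u}) [IsUltrametricDist Λ] {t : E} {s : Λ}
    {G : Subgroup (E ≃ₐ[k] E)} [Fintype G] (hA : IsAmb k Λ s) (hG : IsGal k t G)
    (Y : Finset E) (hY : ∀ y ∈ Y, y ≠ 0) :
    {t₀ : k | ∃ ι : E →ₐ[k] Λ, ι t = algebraMap k Λ t₀ + s ∧ ∃ y ∈ Y, ‖ι y‖ ≠ 1}.Finite := by
  have h1 : (⋃ y ∈ (Y : Set E), {t₀ : k | ∃ ι : E →ₐ[k] Λ, ι t = algebraMap k Λ t₀ + s ∧
      ‖ι y‖ ≠ 1}).Finite :=
    Set.Finite.biUnion (Finset.finite_toSet Y) fun y hy => hfin k E Λ t s G hA hG y (hY y hy)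
  refine h1.subset ?_
  rintro t₀ ⟨ι, h2, y, hy, h3⟩
  exact Set.mem_biUnion hy ⟨ι, h2, h3⟩

/-- a coordinate and a system of places such that finitely many given elements are units at infinity,
and outside of a finite set -/
lemma coord_pp (hemb : S_emb.{u}) (hpl : S_pl.{u}) (hfin : S_fin.{u}) (hcoord : S_coord.{u})
    [IsAlgClosed k] [IsUltrametricDist Λ] [IsAlgClosed Λ] {t : E} {s : Λ}
    {G : Subgroup (E ≃ₐ[k] E)} [Fintype G] (hA : IsAmb k Λ s) (hG : IsGal k t G)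
    (Y : Finset E) (hY : ∀ y ∈ Y, y ≠ 0) :
    ∃ t' : E, IsGal k t' G ∧ ∃ pp : PlSys k E Λ t' s,
      (∀ t₀, pp.e t₀ ≤ (Fintype.card G).factorial) ∧ ∃ S₀ : Finset k,
        ∀ y ∈ Y, pp.Unit G S₀ y := by
  classical
  haveI : Infinite k := IsAlgClosed.instInfinite
  have hB := fin_all hfin hA hG Y hY
  obtain ⟨t₁, ht₁⟩ := hB.exists_notMem
  have hG' := hcoord k E t G t₁ hG
  set t' : E := (t - algebraMap k E t₁)⁻¹ with ht'
  obtain ⟨he1, ιi, hιi⟩ := hemb k E Λ t' s G hA hG'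
  choose ι hι using he1
  have h3 := fun t₀ => hpl k E Λ t' s G hA hG' t₀ (ι t₀) (hι t₀)
  choose e w hew hpw using h3
  have hB' := fin_all hfin hA hG' Y hY
  refine ⟨t', hG', ⟨ι, hι, ιi, hιi, e, w, hpw⟩, hew, hB'.toFinset, ?_⟩
  intro y hy
  constructor
  · intro t₀ ht₀ g hg
    by_contra hcon
    apply ht₀
    rw [Set.Finite.mem_toFinset]
    refine ⟨(ι t₀).comp (g : E →ₐ[k] E), ?_, y, hy, hcon⟩
    change ι t₀ (g t') = _
    rw [hG'.fix g hg, hι]
  · intro g hg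
    by_contra hcon
    apply ht₁
    refine ⟨ιi.comp (g : E →ₐ[k] E), ?_, y, hy, hcon⟩
    change ιi (g t) = _
    rw [hG.fix g hg]
    have h4 : ιi (t - algebraMap k E t₁) = s := by
      have h5 : t - algebraMap k E t₁ = t'⁻¹ := by rw [ht', inv_inv]
      rw [h5, map_inv₀, hιi, inv_inv]
    rw [map_sub, AlgHom.commutes] at h4
    rw [← h4]
    ring

theorem core_fix (hamb : S_amb.{u}) (hemb : S_emb.{u}) (hpl : S_pl.{u}) (hfin : S_fin.{u})
    (hcoord : S_coord.{u}) (hder : S_der.{u}) (htay : S_tay.{u}) (hmi : S_mi.{u})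
    (hloc : S_loc.{u}) (hred : S_red.{u}) (hsel : S_sel.{u}) (hglob : S_glob.{u})
    (hni : S_ni.{u}) (hnum : S_numcore.{u}) (d ν : ℕ) (hd : 2 ≤ d) (hν : 1 ≤ ν) :
    ∃ B : ℕ, ∀ (k E : Type u) [Field k] [CharZero k] [IsAlgClosed k] [Field E]
      [Algebra k E] (t : E) (G : Subgroup (E ≃ₐ[k] E)) [Fintype G], IsGal k t G →
      Fintype.card G = ν → ∀ p q : E[X], p.natDegree ≤ d → q.natDegree = d → IsCoprime p q →
      ∀ P : Finset E, Stab p q P → ¬ ConjConst k p q d → P.card ≤ B := by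
  obtain ⟨N₁, c', η, hc0, hc1, hη, hL⟩ := hloc d hd
  obtain ⟨Θ, b, n, hΘ, hb, hN1, hdn, hN⟩ := hnum d ν N₁ c' η hd hν hc0 hc1 hη
  obtain ⟨N₀, hS⟩ := hsel d (Θ * b) b ν
  obtain ⟨N'', hR⟩ := hred d (max N₀ (3 * d + 4)) (by omega)
  refine ⟨N'', ?_⟩
  intro k E _ _ _ _ _ t G _ hG hcard p q hp hq hco P hP hiso
  by_contra hlt
  push Not at hlt
  classical
  obtain ⟨P', hP'P, hP', hN', hSur⟩ := hR E p q hp hq hco P hP hlt.le
  obtain ⟨Λ, iN, iU, iA, iAlg, s, hΛ⟩ := hamb k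
  have hres : resultant q p d d ≠ 0 := res_ne d p q hp hq (by omega) hco
  let Y : Finset E := (P'.filter (· ≠ 0) ∪ P'.image (fun z => q.eval z)) ∪
    (((P' ×ˢ P').filter (fun z => z.1 ≠ z.2)).image (fun z => z.1 - z.2) ∪
      {resultant q p d d})
  have hY : ∀ y ∈ Y, y ≠ 0 := by
    intro y hy
    rcases Finset.mem_union.1 hy with h | h
    · rcases Finset.mem_union.1 h with h | h
      · exact (Finset.mem_filter.1 h).2
      · obtain ⟨z, hz, rfl⟩ := Finset.mem_image.1 h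
        exact (hP' z hz).1
    · rcases Finset.mem_union.1 h with h | h
      · obtain ⟨z, hz, rfl⟩ := Finset.mem_image.1 h
        exact sub_ne_zero.2 (Finset.mem_filter.1 hz).2
      · rw [Finset.mem_singleton.1 h]
        exact hres
  obtain ⟨t', hG', pp, he, S₀, hU⟩ := coord_pp hemb hpl hfin hcoord hΛ hG Y hY
  have hUd : ∀ z ∈ P', ∀ z' ∈ P', z ≠ z' → pp.Unit G S₀ (z - z') := by
    intro z hz z' hz' hne
    refine hU _ (Finset.mem_union_right _ (Finset.mem_union_left _ ?_))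
    exact Finset.mem_image.2 ⟨(z, z'), Finset.mem_filter.2 ⟨Finset.mk_mem_product hz hz', hne⟩, rfl⟩
  have hUq : ∀ z ∈ P', pp.Unit G S₀ (q.eval z) := fun z hz =>
    hU _ (Finset.mem_union_left _ (Finset.mem_union_right _ (Finset.mem_image_of_mem _ hz)))
  have hUr : pp.Unit G S₀ (resultant q p d d) :=
    hU _ (Finset.mem_union_right _ (Finset.mem_union_right _ (Finset.mem_singleton_self _)))
  have hUi : ∀ z ∈ P', pp.Int G S₀ z := by
    intro z hz
    by_cases h0 : z = 0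
    · subst h0
      exact ⟨fun t₀ _ g _ => by simp, fun g _ => by simp⟩
    · have h1 := hU z (Finset.mem_union_left _ (Finset.mem_union_left _
        (Finset.mem_filter.2 ⟨hz, h0⟩)))
      exact ⟨fun t₀ h g hg => (h1.1 t₀ h g hg).le, fun g hg => (h1.2 g hg).le⟩
  obtain ⟨al, hal, hsum⟩ := hglob k E Λ t' s G hΛ hG' pp S₀ d hd p q P' hP' hres hUr hUq hUd
  -- the local theorem
  have hloc' := fun (t₀ : k) (g : G) => hL k E Λ hΛ.norm_c
    ((pp.ι t₀).comp ((g : E ≃ₐ[k] E) : E →ₐ[k] E)) (pp.e t₀)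
    (fun y => pp.u t₀ ((g : E ≃ₐ[k] E) y)) (isPl_comp (pp.pl t₀) g) p q hp hq hco P' hP' (al t₀ g)
    (hal t₀ g)
  choose R hR1 hR2 hR3 using hloc'
  let S : Finset k := S₀.filter (fun t₀ => ∃ g, 1 ≤ R t₀ g)
  have hSS : S ⊆ S₀ := Finset.filter_subset _ _
  have hR0 : ∀ t₀ ∈ S₀, t₀ ∉ S → ∀ g, R t₀ g = 0 := by
    intro t₀ h1 h2 g
    by_contra h3
    exact h2 (Finset.mem_filter.2 ⟨h1, g, Nat.one_le_iff_ne_zero.2 h3⟩)
  have hSne : S.Nonempty := by
    by_contra hemp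
    rw [Finset.not_nonempty_iff_eq_empty] at hemp
    have hcr := hni k E Λ t' s G hΛ hG' pp S₀ P' hUd
      (fun t₀ g z z' => gg (fun y => pp.u t₀ ((g : E ≃ₐ[k] E) y)) (al t₀ g) d p q z z') hsum
      (fun t₀ ht g => hR2 t₀ g (hR0 t₀ ht (by rw [hemp]; simp) g))
    apply hiso
    refine Pool.Agent.W277.UH.conj_of_cross p q d hp hq hd hco P' hP' P' subset_rfl hcr ?_
    rw [Finset.sdiff_self, Finset.card_empty, mul_zero, zero_add]
    exact (le_max_right _ _).trans hN'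
  -- the derivation and the Taylor homomorphism
  obtain ⟨D, hDt, hDg, hDk⟩ := hder k E t' G hG'
  obtain ⟨τ, hτ, hτt⟩ := htay k E t' D hDt
  have hNDH : NDH k D d p q P' := ⟨hDk, hd, hp, hq, hco, hP', hSur, hiso⟩
  obtain ⟨x, hxi, hxP, hxΓ⟩ := hS k E D p q P' hNDH ((le_max_left _ _).trans hN')
    ((univ : Finset G).map ⟨Subtype.val, Subtype.val_injective⟩)
    (by rw [Finset.card_map, Finset.card_univ, hcard]) (by
      intro h hh
      obtain ⟨g, -, rfl⟩ := Finset.mem_map.1 hh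
      exact hDg _ g.2)
  have hcJ : Fintype.card (II (Θ * b) b) = (Θ * b + 1) * (b + 1) := by simp
  -- the Moebius maps
  haveI : Nonempty (Mb E) := ⟨⟨0, 0, 0, 0⟩⟩
  have hm : ∀ t₀ ∈ S₀, ∀ g : G, ∃ m : Mb E, m.det ≠ 0 ∧ (∀ l, m.den (x l) ≠ 0) ∧
      (∀ l, ‖pp.ι t₀ ((g : E ≃ₐ[k] E) (m.app (x l)))‖ ≤ 1) ∧
      (t₀ ∉ S → ∀ l l', l ≠ l' →
        (pp.u t₀ ((g : E ≃ₐ[k] E) (m.app (x l) - m.app (x l'))) : ℝ) =
          gg (fun y => pp.u t₀ ((g : E ≃ₐ[k] E) y)) (al t₀ g) d p q (x l) (x l')) ∧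
      (t₀ ∈ S → (∀ l, 2 * cnt (fun l l' =>
          pp.u t₀ ((g : E ≃ₐ[k] E) (m.app (x l) - m.app (x l')))) 1 l ≤
            Fintype.card (II (Θ * b) b)) ∧
        (1 ≤ R t₀ g → ∑ l, ∑ l' ∈ univ.erase l,
            gg (fun y => pp.u t₀ ((g : E ≃ₐ[k] E) y)) (al t₀ g) d p q (x l) (x l') ≤
            c' * (Fintype.card (II (Θ * b) b) : ℝ) ^ 2 * R t₀ g →
            η * (Fintype.card (II (Θ * b) b) : ℝ) ^ 2 * R t₀ g ≤
              ∑ l, ∑ l' ∈ univ.erase l,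
                (pp.u t₀ ((g : E ≃ₐ[k] E) (m.app (x l) - m.app (x l'))) : ℝ))) := by
    intro t₀ ht₀ g
    by_cases hts : t₀ ∈ S
    · obtain ⟨m, h1, h2, h3, h4⟩ := hR3 t₀ g (II (Θ * b) b) x hxi hxP (by rw [hcJ]; exact hN1)
      exact ⟨m, h1, fun l => (h2 l).1, fun l => (h2 l).2, fun h => absurd hts h,
        fun _ => ⟨h3, h4⟩⟩
    · obtain ⟨m, h1, h2, h3⟩ := hR2 t₀ g (hR0 t₀ ht₀ hts g)
      exact ⟨m, h1, fun l => (h2 _ (hxP l)).1, fun l => (h2 _ (hxP l)).2,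
        fun _ l l' hne => h3 _ (hxP l) _ (hxP l') (fun h => hne (hxi h)), fun h => absurd h hts⟩
  choose! m hm1 hm2 hm3 hm4 hm5 using hm
  let o : k → G → II (Θ * b) b → II (Θ * b) b → ℤ := fun t₀ g l l' =>
    pp.u t₀ ((g : E ≃ₐ[k] E) ((m t₀ g).app (x l) - (m t₀ g).app (x l')))
  let M : ℕ := (S₀ ×ˢ ((univ : Finset G) ×ˢ ((univ : Finset (II (Θ * b) b)) ×ˢ
    (univ : Finset (II (Θ * b) b))))).sup fun w => (o w.1 w.2.1 w.2.2.1 w.2.2.2).toNat
  have hM : ∀ t₀ ∈ S₀, ∀ g l l', o t₀ g l l' ≤ M := by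
    intro t₀ ht₀ g l l'
    have h1 : (o t₀ g l l').toNat ≤ M :=
      Finset.le_sup (f := fun w : k × G × II (Θ * b) b × II (Θ * b) b =>
        (o w.1 w.2.1 w.2.2.1 w.2.2.2).toNat) (b := (t₀, g, l, l'))
        (Finset.mk_mem_product ht₀ (Finset.mk_mem_product (Finset.mem_univ _)
          (Finset.mk_mem_product (Finset.mem_univ _) (Finset.mem_univ _))))
    exact (Int.self_le_toNat _).trans (by exact_mod_cast h1)
  have hnn : ∀ t₀ ∈ S₀, ∀ g l l', l ≠ l' → 0 ≤ o t₀ g l l' := by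
    intro t₀ ht₀ g l l' hne
    refine isPl_nonneg (pp.pl t₀) ?_ ?_
    · have h1 := app_ne (m t₀ g) (hm1 t₀ ht₀ g) (hm2 t₀ ht₀ g l) (hm2 t₀ ht₀ g l')
        (fun h => hne (hxi h))
      rw [Ne, map_eq_zero]
      exact h1
    · rw [map_sub, map_sub, sub_eq_add_neg]
      refine (IsUltrametricDist.norm_add_le_max _ _).trans (max_le (hm3 t₀ ht₀ g l) ?_)
      rw [norm_neg]
      exact hm3 t₀ ht₀ g l'
  have hmain := hmi k E Λ t' s G hΛ hG' pp S S₀ hSS (Θ * b) b Θ M (b * ((Θ * b + 1) * (b + 1)))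
    (Nat.mul_pos (by omega) hb) hb hΘ x hxi (fun l => hUi _ (hxP l))
    (fun l j hne => hUd _ (hxP l) _ (hxP j) (fun h => hne (hxi h))) m hm1 hm2 hm3
    (fun t₀ ht₀ g l j _ => hM t₀ ht₀ g l j) τ hτt (by
      intro g hg y
      rw [hτ, hτ]
      exact tay_comm D g (hDg g hg) y) (by
      intro h hh
      have h1 := hxΓ h (Finset.mem_map.2 ⟨⟨h, hh⟩, Finset.mem_univ _, rfl⟩)
      have h2 : (fun l => tay D (h (x l))) = fun l => τ (h (x l)) := by
        funext l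
        rw [hτ]
      rw [h2] at h1
      exact h1)
  refine hN k S₀ S hSS hSne G hcard pp.e (fun t₀ _ => ⟨(pp.pl t₀).he, hcard ▸ he t₀⟩) R
    (fun t₀ g => ∑ l, ∑ l' ∈ univ.erase l,
      gg (fun y => pp.u t₀ ((g : E ≃ₐ[k] E) y)) (al t₀ g) d p q (x l) (x l')) M o
    (fun t₀ ht₀ g l l' hne => ⟨hnn t₀ ht₀ g l l' hne, hM t₀ ht₀ g l l'⟩) ?_ ?_ ?_ ?_ ?_ ?_ ?_
  · -- the sum of the energies
    have h1 : ∀ l : II (Θ * b) b, ∀ l' ∈ univ.erase l, ∑ t₀ ∈ S₀, ∑ g : G,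
        gg (fun y => pp.u t₀ ((g : E ≃ₐ[k] E) y)) (al t₀ g) d p q (x l) (x l') / pp.e t₀ = 0 := by
      intro l l' hl'
      exact hsum _ (hxP l) _ (hxP l') (fun h => (Finset.ne_of_mem_erase hl') (hxi h).symm)
    calc ∑ t₀ ∈ S₀, ∑ g : G, (∑ l, ∑ l' ∈ univ.erase l,
          gg (fun y => pp.u t₀ ((g : E ≃ₐ[k] E) y)) (al t₀ g) d p q (x l) (x l')) / pp.e t₀
        = ∑ t₀ ∈ S₀, ∑ g : G, ∑ l, ∑ l' ∈ univ.erase l,
          gg (fun y => pp.u t₀ ((g : E ≃ₐ[k] E) y)) (al t₀ g) d p q (x l) (x l') / pp.e t₀ := by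
          refine Finset.sum_congr rfl fun t₀ _ => Finset.sum_congr rfl fun g _ => ?_
          rw [Finset.sum_div]
          exact Finset.sum_congr rfl fun l _ => by rw [Finset.sum_div]
      _ = ∑ t₀ ∈ S₀, ∑ l, ∑ l' ∈ univ.erase l, ∑ g : G,
          gg (fun y => pp.u t₀ ((g : E ≃ₐ[k] E) y)) (al t₀ g) d p q (x l) (x l') / pp.e t₀ := by
          refine Finset.sum_congr rfl fun t₀ _ => ?_
          rw [Finset.sum_comm]
          refine Finset.sum_congr rfl fun l _ => ?_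
          rw [Finset.sum_comm]
      _ = ∑ l, ∑ l' ∈ univ.erase l, ∑ t₀ ∈ S₀, ∑ g : G,
          gg (fun y => pp.u t₀ ((g : E ≃ₐ[k] E) y)) (al t₀ g) d p q (x l) (x l') / pp.e t₀ := by
          rw [Finset.sum_comm]
          refine Finset.sum_congr rfl fun l _ => ?_
          rw [Finset.sum_comm]
      _ = 0 := Finset.sum_eq_zero fun l _ => Finset.sum_eq_zero fun l' hl' => h1 l l' hl'
  · intro t₀ _ g
    have h1 := hR1 t₀ g (II (Θ * b) b) x hxi hxP n (by rw [hcJ]; exact_mod_cast hdn)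
    rw [hcJ] at h1
    exact h1
  · intro t₀ ht₀ hts g
    refine Finset.sum_congr rfl fun l _ => Finset.sum_congr rfl fun l' hl' => ?_
    exact (hm4 t₀ ht₀ g hts l l' (Finset.ne_of_mem_erase hl').symm).symm
  · intro t₀ ht₀
    exact (Finset.mem_filter.1 ht₀).2
  · intro t₀ ht₀ g l
    have h1 := (hm5 t₀ (hSS ht₀) g ht₀).1 l
    rw [hcJ] at h1
    exact h1
  · intro t₀ ht₀ g h1 h2
    have h3 := (hm5 t₀ (hSS ht₀) g ht₀).2 h1
    rw [hcJ] at h3
    exact h3 h2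
  · rw [hcard] at hmain
    exact hmain

theorem core (hamb : S_amb.{u}) (hemb : S_emb.{u}) (hpl : S_pl.{u}) (hfin : S_fin.{u})
    (hcoord : S_coord.{u}) (hder : S_der.{u}) (htay : S_tay.{u}) (hmi : S_mi.{u})
    (hloc : S_loc.{u}) (hred : S_red.{u}) (hsel : S_sel.{u}) (hglob : S_glob.{u})
    (hni : S_ni.{u}) (hnum : S_numcore.{u}) : S_core.{u} := by
  intro d n hd
  have h1 : ∀ ν : ℕ, ∃ B : ℕ, 1 ≤ ν → ∀ (k E : Type u) [Field k] [CharZero k] [IsAlgClosed k]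
      [Field E] [Algebra k E] (t : E) (G : Subgroup (E ≃ₐ[k] E)) [Fintype G], IsGal k t G →
      Fintype.card G = ν → ∀ p q : E[X], p.natDegree ≤ d → q.natDegree = d → IsCoprime p q →
      ∀ P : Finset E, Stab p q P → ¬ ConjConst k p q d → P.card ≤ B := by
    intro ν
    by_cases hν : 1 ≤ ν
    · obtain ⟨B, hB⟩ := core_fix hamb hemb hpl hfin hcoord hder htay hmi hloc hred hsel hglob hni
        hnum d ν hd hν
      exact ⟨B, fun _ => hB⟩
    · exact ⟨0, fun h => absurd h hν⟩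
  choose B hB using h1
  refine ⟨(range (n + 1)).sup B, ?_⟩
  intro k E _ _ _ _ _ t G _ hG hcard p q hp hq hco P hP hiso
  have h2 := hB (Fintype.card G) Fintype.card_pos k E t G hG rfl p q hp hq hco P hP hiso
  exact h2.trans (Finset.le_sup (f := B) (Finset.mem_range.2 (by omega)))

end Pool.Agent.Q177.SU
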