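import Pool.Agent.Q177.SU.Core

/-!
# Project SU (helper41): jobs A1 (local functions), A2 (the global sum), A3 (constant cross ratios)
-/

set_option autoImplicit false
set_option linter.unusedVariables false
set_option linter.unusedSectionVars false

namespace Pool.Agent.Q177.SU

open Finset Polynomial Pool.Agent.Q41.SU
open Pool.Agent.W277.UH (ConjConst)

universe u

lemma st_zero {A : Type u} (d : ℕ) (hd : 2 ≤ d) (P : Finset A) (f : A → A)
    (hf : ∀ z ∈ P, f z ∈ P) (g : A → ℝ) (hg : ∀ z ∈ P, (d : ℝ) * g z = g (f z)) :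
    ∀ z ∈ P, g z = 0 := by
  intro z hz
  obtain ⟨w, hw, hmax⟩ := Finset.exists_max_image P (fun z => |g z|) ⟨z, hz⟩
  have h1 := hg w hw
  have h2 := hmax _ (hf w hw)
  rw [← h1, abs_mul, Nat.abs_cast] at h2
  have hd' : (2 : ℝ) ≤ d := by exact_mod_cast hd
  have h3 : |g w| = 0 := by
    have := abs_nonneg (g w)
    nlinarith
  have h4 := hmax z hz
  rw [h3] at h4
  exact abs_nonpos_iff.mp h4

/-- JOB A1 -/
theorem af : S_af.{u} := by
  classical
  intro A P f hf d hd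
  refine ⟨fun w => ?_, fun a ha => st_zero d hd P f hf a ha⟩
  let T : ({z // z ∈ P} → ℝ) →ₗ[ℝ] ({z // z ∈ P} → ℝ) :=
    { toFun := fun φ z => (d : ℝ) * φ z - φ ⟨f z.1, hf z.1 z.2⟩
      map_add' := by
        intro φ ψ
        funext z
        simp only [Pi.add_apply]
        ring
      map_smul' := by
        intro c φ
        funext z
        simp only [Pi.smul_apply, smul_eq_mul, RingHom.id_apply]
        ring }
  have hinj : Function.Injective T := by
    rw [← LinearMap.ker_eq_bot, LinearMap.ker_eq_bot']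
    intro φ hφ
    have h1 := st_zero d hd P f hf (fun z => if h : z ∈ P then φ ⟨z, h⟩ else 0) (by
      intro z hz
      have h2 := congrFun hφ ⟨z, hz⟩
      have h3 : (d : ℝ) * φ ⟨z, hz⟩ - φ ⟨f z, hf z hz⟩ = 0 := h2
      rw [dif_pos hz, dif_pos (hf z hz)]
      linarith)
    funext z
    have h2 := h1 z.1 z.2
    rw [dif_pos z.2] at h2
    exact h2
  obtain ⟨φ, hφ⟩ := (LinearMap.injective_iff_surjective.mp hinj) fun z => w z.1
  refine ⟨fun z => if h : z ∈ P then φ ⟨z, h⟩ else 0, fun z hz => ?_⟩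
  have h2 := congrFun hφ ⟨z, hz⟩
  have h3 : (d : ℝ) * φ ⟨z, hz⟩ - φ ⟨f z, hf z hz⟩ = w z := h2
  beta_reduce
  rw [dif_pos hz, dif_pos (hf z hz)]
  linarith

/-- JOB A2 -/
theorem glob (haf : S_af.{u}) (hprod : S_prod.{u}) : S_glob.{u} := by
  classical
  intro k E Λ _ _ _ _ _ _ _ t s G _ hA hG pp S₀ d hd p q P hP hres hUr hUq hUd
  have hf : ∀ z ∈ P, p.eval z / q.eval z ∈ P := fun z hz => (hP z hz).2
  have h1 := fun (t₀ : k) (g : G) => (haf E P (fun z => p.eval z / q.eval z) hf d hd).1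
    (fun z => (pp.u t₀ ((g : E ≃ₐ[k] E) (q.eval z)) : ℝ))
  choose a ha using h1
  refine ⟨a, ha, ?_⟩
  have hb : ∀ z ∈ P, ∑ t₀ ∈ S₀, ∑ g : G, a t₀ g z / pp.e t₀ = 0 := by
    refine (haf E P (fun z => p.eval z / q.eval z) hf d hd).2
      (fun z => ∑ t₀ ∈ S₀, ∑ g : G, a t₀ g z / pp.e t₀) ?_
    intro z hz
    have h2 := hprod k E Λ t s G hA hG pp S₀ (q.eval z) (hP z hz).1 (hUq z hz)
    calc (d : ℝ) * ∑ t₀ ∈ S₀, ∑ g : G, a t₀ g z / pp.e t₀
        = ∑ t₀ ∈ S₀, ∑ g : G, ((pp.u t₀ ((g : E ≃ₐ[k] E) (q.eval z)) : ℝ) / pp.e t₀ +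
            a t₀ g (p.eval z / q.eval z) / pp.e t₀) := by
          rw [Finset.mul_sum]
          refine Finset.sum_congr rfl fun t₀ _ => ?_
          rw [Finset.mul_sum]
          refine Finset.sum_congr rfl fun g _ => ?_
          rw [← mul_div_assoc, ha t₀ g z hz, add_div]
      _ = ∑ t₀ ∈ S₀, ∑ g : G, (pp.u t₀ ((g : E ≃ₐ[k] E) (q.eval z)) : ℝ) / pp.e t₀ +
            ∑ t₀ ∈ S₀, ∑ g : G, a t₀ g (p.eval z / q.eval z) / pp.e t₀ := by
          rw [← Finset.sum_add_distrib]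
          refine Finset.sum_congr rfl fun t₀ _ => ?_
          rw [Finset.sum_add_distrib]
      _ = _ := by rw [h2, zero_add]
  intro z hz z' hz' hne
  have h3 := hprod k E Λ t s G hA hG pp S₀ (z - z') (sub_ne_zero.2 hne) (hUd z hz z' hz' hne)
  have h4 := hprod k E Λ t s G hA hG pp S₀ (resultant q p d d) hres hUr
  have h5 := hb z hz
  have h6 := hb z' hz'
  have h7 : ∑ t₀ ∈ S₀, ∑ g : G, gg (fun y => pp.u t₀ ((g : E ≃ₐ[k] E) y)) (a t₀ g) d p q z z' /
      pp.e t₀ = ∑ t₀ ∈ S₀, ∑ g : G, (pp.u t₀ ((g : E ≃ₐ[k] E) (z - z')) : ℝ) / pp.e t₀ -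
      ∑ t₀ ∈ S₀, ∑ g : G, a t₀ g z / pp.e t₀ - ∑ t₀ ∈ S₀, ∑ g : G, a t₀ g z' / pp.e t₀ +
      (∑ t₀ ∈ S₀, ∑ g : G, (pp.u t₀ ((g : E ≃ₐ[k] E) (resultant q p d d)) : ℝ) / pp.e t₀) /
        (d * ((d : ℝ) - 1)) := by
    rw [Finset.sum_div, ← Finset.sum_sub_distrib, ← Finset.sum_sub_distrib,
      ← Finset.sum_add_distrib]
    refine Finset.sum_congr rfl fun t₀ _ => ?_
    rw [Finset.sum_div, ← Finset.sum_sub_distrib, ← Finset.sum_sub_distrib,
      ← Finset.sum_add_distrib]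
    refine Finset.sum_congr rfl fun g _ => ?_
    unfold gg
    rw [add_div, sub_div, sub_div, div_right_comm]
  rw [h7, h3, h4, h5, h6]
  simp

/-- JOB A3 -/
theorem ni (hconst : S_const.{u}) : S_ni.{u} := by
  classical
  intro k E Λ _ _ _ _ _ _ _ t s G _ hA hG pp S₀ P hUd γ hγ hm x0 hx0 x1 hx1 x2 hx2 x hx h01 h02
    h12 hx2' hx0'
  -- all pair functions vanish
  have hnn : ∀ t₀ ∈ S₀, ∀ g : G, ∀ z ∈ P, ∀ z' ∈ P, z ≠ z' → 0 ≤ γ t₀ g z z' := by
    intro t₀ ht₀ g z hz z' hz' hne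
    obtain ⟨m, h1, h2, h3⟩ := hm t₀ ht₀ g
    rw [← h3 z hz z' hz' hne]
    have h4 := app_ne m h1 (h2 z hz).1 (h2 z' hz').1 hne
    have h5 : 0 ≤ pp.u t₀ ((g : E ≃ₐ[k] E) (m.app z - m.app z')) := by
      refine isPl_nonneg (pp.pl t₀) ?_ ?_
      · rw [Ne, map_eq_zero]
        exact h4
      · rw [map_sub, map_sub, sub_eq_add_neg]
        refine (IsUltrametricDist.norm_add_le_max _ _).trans (max_le (h2 z hz).2 ?_)
        rw [norm_neg]
        exact (h2 z' hz').2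
    exact_mod_cast h5
  have hz0 : ∀ t₀ ∈ S₀, ∀ g : G, ∀ z ∈ P, ∀ z' ∈ P, z ≠ z' → γ t₀ g z z' = 0 := by
    intro t₀ ht₀ g z hz z' hz' hne
    have he : ∀ t₀, (0 : ℝ) < pp.e t₀ := fun t₀ => by exact_mod_cast (pp.pl t₀).he
    have h1 : ∀ t₁ ∈ S₀, ∀ g' : G, 0 ≤ γ t₁ g' z z' / pp.e t₁ := fun t₁ ht₁ g' =>
      div_nonneg (hnn t₁ ht₁ g' z hz z' hz' hne) (he t₁).le
    have h2 := (Finset.sum_eq_zero_iff_of_nonneg fun t₁ ht₁ =>
      Finset.sum_nonneg fun g' _ => h1 t₁ ht₁ g').1 (hγ z hz z' hz' hne) t₀ ht₀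
    have h3 := (Finset.sum_eq_zero_iff_of_nonneg fun g' _ => h1 t₀ ht₀ g').1 h2 g
      (Finset.mem_univ _)
    rcases div_eq_zero_iff.1 h3 with h4 | h4
    · exact h4
    · exact absurd h4 (he t₀).ne'
  -- the norm of the cross ratio
  have hcr : ∀ (j : E →ₐ[k] Λ) (f : E → E), (∀ y ∈ P, ∀ y' ∈ P, y ≠ y' → ‖j (f y - f y')‖ = 1) →
      ‖j (((f x - f x0) * (f x1 - f x2)) / ((f x - f x2) * (f x1 - f x0)))‖ ≤ 1 := by
    intro j f hf
    rw [map_div₀, map_mul, map_mul, norm_div, norm_mul, norm_mul, hf x hx x0 hx0 hx0',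
      hf x1 hx1 x2 hx2 h12, hf x hx x2 hx2 hx2', hf x1 hx1 x0 hx0 h01.symm]
    simp
  obtain ⟨c, hc⟩ := hconst k E Λ t s G hA hG pp
    (((x - x0) * (x1 - x2)) / ((x - x2) * (x1 - x0))) (by
    constructor
    · intro t₀ _ g hg
      by_cases ht₀ : t₀ ∈ S₀
      · obtain ⟨m, h1, h2, h3⟩ := hm t₀ ht₀ ⟨g, hg⟩
        have h4 := hcr ((pp.ι t₀).comp (g : E →ₐ[k] E)) (fun y => m.app y) (by
          intro y hy y' hy' hne
          have h5 := h3 y hy y' hy' hne
          rw [hz0 t₀ ht₀ ⟨g, hg⟩ y hy y' hy' hne] at h5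
          have h6 := app_ne m h1 (h2 y hy).1 (h2 y' hy').1 hne
          have h7 := (pp.pl t₀).norm (g (m.app y - m.app y')) (by
            rw [Ne, map_eq_zero]
            exact h6)
          change (pp.u t₀ (g (m.app y - m.app y')) : ℝ) = 0 at h5
          rw [h5] at h7
          simpa using h7)
        have h5 : ((m.app x - m.app x0) * (m.app x1 - m.app x2)) /
            ((m.app x - m.app x2) * (m.app x1 - m.app x0)) =
            ((x - x0) * (x1 - x2)) / ((x - x2) * (x1 - x0)) := by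
          have hap : ∀ y ∈ P, ∀ y' ∈ P, m.app y - m.app y' =
              m.det * (y - y') / (m.den y * m.den y') := by
            intro y hy y' hy'
            unfold Mb.app
            rw [div_sub_div _ _ (h2 y hy).1 (h2 y' hy').1]
            congr 1
            unfold Mb.den Mb.det
            ring
          rw [hap x hx x0 hx0, hap x1 hx1 x2 hx2, hap x hx x2 hx2, hap x1 hx1 x0 hx0]
          have e1 := (h2 x hx).1
          have e2 := (h2 x0 hx0).1
          have e3 := (h2 x1 hx1).1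
          have e4 := (h2 x2 hx2).1
          have e5 := sub_ne_zero.2 hx2'
          have e6 := sub_ne_zero.2 h01.symm
          field_simp
        rw [h5] at h4
        exact h4
      · exact hcr ((pp.ι t₀).comp (g : E →ₐ[k] E)) (fun y => y)
          (fun y hy y' hy' hne => (hUd y hy y' hy' hne).1 t₀ ht₀ g hg)
    · intro g hg
      exact hcr (pp.ιi.comp (g : E →ₐ[k] E)) (fun y => y)
        (fun y hy y' hy' hne => (hUd y hy y' hy' hne).2 g hg))
  exact ⟨c, hc.symm⟩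

end Pool.Agent.Q177.SU
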